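import Pool.Agent.Helper78.TC.Rest

/-!
# MP_1181b9_nt, block P: the estimate T2 for small primes

`hits_T2_of_gap` derives the estimate from the gap lemma, which is taken as a hypothesis here.
-/

set_option autoImplicit false
open Finset Real

namespace Pool.Agent.Helper78.TC
open Pool.Agent.Helper9.TC

/-- The statement of the gap lemma. -/
def GapStatement : Prop :=
  ∀ (T : Finset (ℝ × ℝ)) (X B x₂ τ R : ℝ), 0 < X → 0 < B → 0 < τ → 0 < x₂ →
    (∀ P ∈ T, X < P.1 * P.2 ∧ P.1 * P.2 < X + B) →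
    (∀ P ∈ T, B ≤ P.1 ∧ P.1 ≤ x₂) → (∀ P ∈ T, B ≤ P.2) →
    (∀ P ∈ T, ∀ Q ∈ T, ∃ a b : ℤ, Q.1 - P.1 = 2 * a ∧ Q.2 - P.2 = 2 * b) →
    2 * τ * √x₂ * (x₂ ^ 2 - X) ≤ x₂ ^ 2 →
    400 * τ ^ 2 ≤ B → 100 * B ≤ X → 400 * B * √x₂ ≤ τ * X →
    2 ≤ R → 17 * τ ^ 4 * X ≤ R ^ 4 →
    (T.card : ℝ) ≤ 1 + √x₂ / τ + 5 / 64 * R ^ 4 +
      B / 2 * (R + 1 / 2 + 1 / 2 * Real.log R)

lemma le_of_sq_le_sq' {a b : ℝ} (_ha : 0 ≤ a) (hb : 0 < b) (h : a ^ 2 ≤ b ^ 2) : a ≤ b :=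
  le_of_not_gt fun hc => absurd h (not_le.mpr (by nlinarith))

lemma even_diff (a b : ℕ) (h : (a + b) % 2 = 0) : ∃ c : ℤ, (b : ℝ) - a = 2 * c := by
  have h1 : (2 : ℤ) ∣ (b : ℤ) - a := by omega
  obtain ⟨c, hc⟩ := h1
  exact ⟨c, by exact_mod_cast hc⟩

/-- numerical facts about the parameters -/
lemma params (s r : ℝ) (hs : 64 ≤ s) (hn : s ^ 6 ≤ r ^ 2) (hr0 : 0 < r) :
    262144 ≤ s ^ 3 ∧ s ^ 3 ≤ r ∧ (2 * r ^ 2 + 1) / s ^ 4 ≤ r ^ 2 / s ^ 2 ∧
    400 * (0.7 * s ^ 2 / r) ^ 2 ≤ (2 * r ^ 2 + 1) / s ^ 4 ∧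
    100 * ((2 * r ^ 2 + 1) / s ^ 4) ≤ (r ^ 2 / s ^ 2) ^ 2 ∧
    17 * (0.7 * s ^ 2 / r) ^ 4 * (r ^ 2 / s ^ 2) ^ 2 ≤ (1.4215 * s) ^ 4 := by
  have hs0 : 0 < s := by linarith
  have hsr : s ^ 3 ≤ r := by
    have : (s ^ 3) ^ 2 ≤ r ^ 2 := by
      have e : (s ^ 3) ^ 2 = s ^ 6 := by ring
      rw [e]; exact hn
    exact le_of_sq_le_sq' (by positivity) hr0 this
  have hs3 : (262144 : ℝ) ≤ s ^ 3 := by
    calc (262144 : ℝ) = 64 ^ 3 := by norm_num
      _ ≤ s ^ 3 := pow_le_pow_left₀ (by norm_num) hs 3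
  have hs2 : (4096 : ℝ) ≤ s ^ 2 := by
    calc (4096 : ℝ) = 64 ^ 2 := by norm_num
      _ ≤ s ^ 2 := pow_le_pow_left₀ (by norm_num) hs 2
  have hr1 : (262144 : ℝ) ≤ r := hs3.trans hsr
  have hq : (262144 : ℝ) ≤ r ^ 2 := by nlinarith
  have hqq : (262144 : ℝ) * r ^ 2 ≤ (r ^ 2) ^ 2 := by nlinarith
  refine ⟨hs3, hsr, ?_, ?_, ?_, ?_⟩
  · rw [div_le_div_iff₀ (by positivity) (by positivity)]
    have h1 : (2 * r ^ 2 + 1) ≤ r ^ 2 * s ^ 2 := by
      have := mul_le_mul_of_nonneg_left hs2 (sq_nonneg r)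
      linarith
    have h2 : r ^ 2 * s ^ 4 = (r ^ 2 * s ^ 2) * s ^ 2 := by ring
    rw [h2]
    exact mul_le_mul_of_nonneg_right h1 (by positivity)
  · rw [div_pow, mul_pow, ← mul_div_assoc, div_le_div_iff₀ (by positivity) (by positivity)]
    have h2 : 262144 * s ^ 8 ≤ r ^ 4 := by
      calc 262144 * s ^ 8 ≤ s ^ 3 * s ^ 8 := mul_le_mul_of_nonneg_right hs3 (by positivity)
        _ = s ^ 11 := by ring
        _ ≤ s ^ 12 := pow_le_pow_right₀ (by linarith) (by norm_num)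
        _ = (s ^ 3) ^ 4 := by ring
        _ ≤ r ^ 4 := pow_le_pow_left₀ (by positivity) hsr 4
    have e : 400 * (0.7 ^ 2 * (s ^ 2) ^ 2) * s ^ 4 = 196 * s ^ 8 := by ring
    rw [e]
    have h3 : (2 * r ^ 2 + 1) * r ^ 2 = 2 * r ^ 4 + r ^ 2 := by ring
    rw [h3]
    have h4 : 0 < s ^ 8 := by positivity
    have h5 : 0 < r ^ 4 := by positivity
    have h6 : 0 < r ^ 2 := by positivity
    linarith
  · rw [div_pow, ← mul_div_assoc, div_le_div_iff₀ (by positivity) (by positivity)]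
    have h1 : 100 * (2 * r ^ 2 + 1) ≤ (r ^ 2) ^ 2 := by linarith
    have h2 : (s ^ 2) ^ 2 = s ^ 4 := by ring
    rw [h2]
    exact mul_le_mul_of_nonneg_right h1 (by positivity)
  · have e1 : 17 * (0.7 * s ^ 2 / r) ^ 4 * (r ^ 2 / s ^ 2) ^ 2 = 17 * 0.7 ^ 4 * s ^ 4 := by
      field_simp
    rw [e1, mul_pow]
    apply mul_le_mul_of_nonneg_right _ (by positivity)
    norm_num

/-- Side `k ≤ n / p`. -/
lemma side_one (gap : GapStatement) (H : Finset (ℕ × ℕ)) (n s : ℝ) (hs : 64 ≤ s)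
    (hn : s ^ 6 ≤ n)
    (hodd : ∀ x ∈ H, x.1 % 2 = 1) (heven : ∀ x ∈ H, x.2 % 2 = 0)
    (hX : ∀ x ∈ H, (n / s ^ 2) ^ 2 < x.1 * (x.2 + 1 / s ^ 2) ∧
      x.1 * (x.2 + 1 / s ^ 2) < (n / s ^ 2) ^ 2 + (2 * n + 1) / s ^ 4)
    (hk : ∀ x ∈ H, (2 * n + 1) / s ^ 4 ≤ (x.1 : ℝ) ∧ (x.1 : ℝ) ≤ n / s ^ 2) :
    (H.card : ℝ) ≤ 1 + n / (0.7 * s ^ 3) + 5 / 64 * (1.4215 * s) ^ 4 +
      (2 * n + 1) / s ^ 4 / 2 * (1.4215 * s + 1 / 2 + 1 / 2 * Real.log (1.4215 * s)) := by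
  classical
  have hs0 : 0 < s := by linarith
  have hn0 : 0 < n := lt_of_lt_of_le (by positivity) hn
  obtain ⟨r, hr0, hrn⟩ : ∃ r : ℝ, 0 < r ∧ r ^ 2 = n :=
    ⟨√n, Real.sqrt_pos.mpr hn0, Real.sq_sqrt hn0.le⟩
  subst hrn
  obtain ⟨hs3, hsr, hBx, h2', h3', h4'⟩ := params s r hs hn hr0
  have hB0 : 0 < (2 * r ^ 2 + 1) / s ^ 4 := by positivity
  have hx₂ : 0 < r ^ 2 / s ^ 2 := by positivity
  have hsq : √(r ^ 2 / s ^ 2) = r / s := by
    rw [← div_pow]; exact Real.sqrt_sq (by positivity)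
  set f : ℕ × ℕ → ℝ × ℝ := fun x => ((x.1 : ℝ), (x.2 : ℝ) + 1 / s ^ 2) with hf
  have hinj : Function.Injective f := by
    intro x y hxy
    simp only [hf, Prod.mk.injEq, add_left_inj, Nat.cast_inj] at hxy
    exact Prod.ext hxy.1 hxy.2
  have key := gap (H.image f) ((r ^ 2 / s ^ 2) ^ 2) ((2 * r ^ 2 + 1) / s ^ 4) (r ^ 2 / s ^ 2)
    (0.7 * s ^ 2 / r) (1.4215 * s) (by positivity) hB0 (by positivity) hx₂
    (by
      intro P hP
      obtain ⟨x, hx, rfl⟩ := mem_image.mp hP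
      exact hX x hx)
    (by
      intro P hP
      obtain ⟨x, hx, rfl⟩ := mem_image.mp hP
      exact hk x hx)
    (by
      intro P hP
      obtain ⟨x, hx, rfl⟩ := mem_image.mp hP
      have h1 := (hX x hx).1
      have h2 := (hk x hx).2
      have h3 : (0 : ℝ) < (x.2 : ℝ) + 1 / s ^ 2 := by positivity
      have h4 : (r ^ 2 / s ^ 2) ^ 2 < (r ^ 2 / s ^ 2) * ((x.2 : ℝ) + 1 / s ^ 2) :=
        lt_of_lt_of_le h1 (mul_le_mul_of_nonneg_right h2 h3.le)
      have h5 : r ^ 2 / s ^ 2 < (x.2 : ℝ) + 1 / s ^ 2 := by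
        rw [pow_two (r ^ 2 / s ^ 2)] at h4
        exact lt_of_mul_lt_mul_left h4 hx₂.le
      exact hBx.trans h5.le)
    (by
      intro P hP Q hQ
      obtain ⟨x, hx, rfl⟩ := mem_image.mp hP
      obtain ⟨y, hy, rfl⟩ := mem_image.mp hQ
      have h1 := hodd x hx
      have h2 := hodd y hy
      have h3 := heven x hx
      have h4 := heven y hy
      obtain ⟨c, hc⟩ := even_diff x.1 y.1 (by omega)
      obtain ⟨d, hd⟩ := even_diff x.2 y.2 (by omega)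
      refine ⟨c, d, hc, ?_⟩
      simp only [hf]
      linarith)
    (by
      rw [sub_self, mul_zero]
      positivity)
    h2' h3'
    (by
      rw [hsq]
      have h1 : 400 * (2 * r ^ 2 + 1) ≤ 0.7 * (r ^ 2 * s ^ 3) := by
        have hr2 : 1 ≤ r ^ 2 := by nlinarith
        have := mul_le_mul_of_nonneg_left hs3 (sq_nonneg r)
        linarith
      have e1 : 400 * ((2 * r ^ 2 + 1) / s ^ 4) * (r / s) =
          (400 * (2 * r ^ 2 + 1)) * (r / s ^ 5) := by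
        field_simp
      have e2 : 0.7 * s ^ 2 / r * (r ^ 2 / s ^ 2) ^ 2 = (0.7 * (r ^ 2 * s ^ 3)) * (r / s ^ 5) := by
        field_simp
      rw [e1, e2]
      exact mul_le_mul_of_nonneg_right h1 (by positivity))
    (by linarith) h4'
  rw [Finset.card_image_of_injective _ hinj] at key
  have e : √(r ^ 2 / s ^ 2) / (0.7 * s ^ 2 / r) = r ^ 2 / (0.7 * s ^ 3) := by
    rw [hsq]; field_simp
  rw [e] at key
  exact key

/-- Side `k > n / p`. -/
lemma side_two (gap : GapStatement) (H : Finset (ℕ × ℕ)) (n s : ℝ) (hs : 64 ≤ s)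
    (hn : s ^ 6 ≤ n)
    (hodd : ∀ x ∈ H, x.1 % 2 = 1) (heven : ∀ x ∈ H, x.2 % 2 = 0)
    (hX : ∀ x ∈ H, (n / s ^ 2) ^ 2 < x.1 * (x.2 + 1 / s ^ 2) ∧
      x.1 * (x.2 + 1 / s ^ 2) < (n / s ^ 2) ^ 2 + (2 * n + 1) / s ^ 4)
    (hj : ∀ x ∈ H, (2 * n + 1) / s ^ 4 ≤ (x.2 : ℝ) + 1 / s ^ 2)
    (hk : ∀ x ∈ H, n / s ^ 2 < (x.1 : ℝ)) :
    (H.card : ℝ) ≤ 1 + (n + 1) / (0.7 * s ^ 3) + 5 / 64 * (1.4215 * s) ^ 4 +
      (2 * n + 1) / s ^ 4 / 2 * (1.4215 * s + 1 / 2 + 1 / 2 * Real.log (1.4215 * s)) := by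
  classical
  have hs0 : 0 < s := by linarith
  have hn0 : 0 < n := lt_of_lt_of_le (by positivity) hn
  obtain ⟨r, hr0, hrn⟩ : ∃ r : ℝ, 0 < r ∧ r ^ 2 = n :=
    ⟨√n, Real.sqrt_pos.mpr hn0, Real.sq_sqrt hn0.le⟩
  subst hrn
  obtain ⟨hs3, hsr, hBx, h2', h3', h4'⟩ := params s r hs hn hr0
  have hr1 : (262144 : ℝ) ≤ r := hs3.trans hsr
  have hB0 : 0 < (2 * r ^ 2 + 1) / s ^ 4 := by positivity
  have hx₂ : 0 < ((r ^ 2 + 1) / (r * s)) ^ 2 := by positivity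
  have hsq : √(((r ^ 2 + 1) / (r * s)) ^ 2) = (r ^ 2 + 1) / (r * s) :=
    Real.sqrt_sq (by positivity)
  set f : ℕ × ℕ → ℝ × ℝ := fun x => ((x.2 : ℝ) + 1 / s ^ 2, (x.1 : ℝ)) with hf
  have hinj : Function.Injective f := by
    intro x y hxy
    simp only [hf, Prod.mk.injEq, add_left_inj, Nat.cast_inj] at hxy
    exact Prod.ext hxy.2 hxy.1
  have key := gap (H.image f) ((r ^ 2 / s ^ 2) ^ 2) ((2 * r ^ 2 + 1) / s ^ 4)
    (((r ^ 2 + 1) / (r * s)) ^ 2)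
    (0.7 * s ^ 2 / r) (1.4215 * s) (by positivity) hB0 (by positivity) hx₂
    (by
      intro P hP
      obtain ⟨x, hx, rfl⟩ := mem_image.mp hP
      have := hX x hx
      simp only [hf]
      rw [mul_comm]
      exact this)
    (by
      intro P hP
      obtain ⟨x, hx, rfl⟩ := mem_image.mp hP
      refine ⟨hj x hx, ?_⟩
      simp only [hf]
      have h1 := (hX x hx).2
      have h2 := hk x hx
      have h3 : (0 : ℝ) < (x.2 : ℝ) + 1 / s ^ 2 := by positivity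
      have h4 : (r ^ 2 / s ^ 2) * ((x.2 : ℝ) + 1 / s ^ 2) <
          (r ^ 2 / s ^ 2) ^ 2 + (2 * r ^ 2 + 1) / s ^ 4 :=
        lt_of_le_of_lt (mul_le_mul_of_nonneg_right h2.le h3.le) h1
      have h5 : (r ^ 2 / s ^ 2) ^ 2 + (2 * r ^ 2 + 1) / s ^ 4 =
          (r ^ 2 / s ^ 2) * ((r ^ 2 + 1) / (r * s)) ^ 2 := by
        field_simp
        ring
      rw [h5] at h4
      exact (lt_of_mul_lt_mul_left h4 (by positivity)).le)
    (by
      intro P hP
      obtain ⟨x, hx, rfl⟩ := mem_image.mp hP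
      exact hBx.trans (hk x hx).le)
    (by
      intro P hP Q hQ
      obtain ⟨x, hx, rfl⟩ := mem_image.mp hP
      obtain ⟨y, hy, rfl⟩ := mem_image.mp hQ
      have h1 := hodd x hx
      have h2 := hodd y hy
      have h3 := heven x hx
      have h4 := heven y hy
      obtain ⟨c, hc⟩ := even_diff x.1 y.1 (by omega)
      obtain ⟨d, hd⟩ := even_diff x.2 y.2 (by omega)
      refine ⟨d, c, ?_, hc⟩
      simp only [hf]
      linarith)
    (by
      rw [hsq]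
      have e1 : 2 * (0.7 * s ^ 2 / r) * ((r ^ 2 + 1) / (r * s)) *
          ((((r ^ 2 + 1) / (r * s)) ^ 2) ^ 2 - (r ^ 2 / s ^ 2) ^ 2) =
          (1.4 * s * (r ^ 2 + 1) * ((r ^ 2 + 1) ^ 4 - r ^ 8)) / (r ^ 6 * s ^ 4) := by
        field_simp
        ring
      have e2 : (((r ^ 2 + 1) / (r * s)) ^ 2) ^ 2 =
          ((r ^ 2 + 1) ^ 4 * r ^ 2) / (r ^ 6 * s ^ 4) := by
        field_simp
      rw [e1, e2]
      apply div_le_div_of_nonneg_right _ (by positivity)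
      have h1 : (r ^ 2 + 1) ^ 4 - r ^ 8 ≤ 4 * (r ^ 2 + 1) ^ 3 := by
        have : 4 * (r ^ 2 + 1) ^ 3 - ((r ^ 2 + 1) ^ 4 - r ^ 8) = 6 * r ^ 4 + 8 * r ^ 2 + 3 := by
          ring
        have h : 0 ≤ 6 * r ^ 4 + 8 * r ^ 2 + 3 := by positivity
        linarith
      have h2 : 5.6 * s ≤ r ^ 2 := by
        have h3 : s ≤ s ^ 3 := by
          calc s = s ^ 1 := (pow_one s).symm
            _ ≤ s ^ 3 := pow_le_pow_right₀ (by linarith) (by norm_num)
        nlinarith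
      calc 1.4 * s * (r ^ 2 + 1) * ((r ^ 2 + 1) ^ 4 - r ^ 8)
          ≤ 1.4 * s * (r ^ 2 + 1) * (4 * (r ^ 2 + 1) ^ 3) :=
            mul_le_mul_of_nonneg_left h1 (by positivity)
        _ = (r ^ 2 + 1) ^ 4 * (5.6 * s) := by ring
        _ ≤ (r ^ 2 + 1) ^ 4 * r ^ 2 := mul_le_mul_of_nonneg_left h2 (by positivity))
    h2' h3'
    (by
      rw [hsq]
      have h1 : 400 * (2 * r ^ 2 + 1) * (r ^ 2 + 1) ≤ 0.7 * (r ^ 4 * s ^ 3) := by
        have hr2 : 1 ≤ r ^ 2 := by nlinarith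
        have hr4 : r ^ 2 ≤ r ^ 4 := by nlinarith
        have := mul_le_mul_of_nonneg_left hs3 (by positivity : (0 : ℝ) ≤ r ^ 4)
        nlinarith
      have e1 : 400 * ((2 * r ^ 2 + 1) / s ^ 4) * ((r ^ 2 + 1) / (r * s)) =
          (400 * (2 * r ^ 2 + 1) * (r ^ 2 + 1)) / (r * s ^ 5) := by
        field_simp
      have e2 : 0.7 * s ^ 2 / r * (r ^ 2 / s ^ 2) ^ 2 = (0.7 * (r ^ 4 * s ^ 3)) / (r * s ^ 5) := by
        field_simp
      rw [e1, e2]
      exact div_le_div_of_nonneg_right h1 (by positivity))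
    (by linarith) h4'
  rw [Finset.card_image_of_injective _ hinj] at key
  have e : √(((r ^ 2 + 1) / (r * s)) ^ 2) / (0.7 * s ^ 2 / r) = (r ^ 2 + 1) / (0.7 * s ^ 3) := by
    rw [hsq]; field_simp
  rw [e] at key
  exact key

/-- The final numerical inequality. -/
lemma final_ineq (n s : ℝ) (hs : 64 ≤ s) (hn : s ^ 6 ≤ n) :
    (1 + n / (0.7 * s ^ 3) + 5 / 64 * (1.4215 * s) ^ 4 +
      (2 * n + 1) / s ^ 4 / 2 * (1.4215 * s + 1 / 2 + 1 / 2 * Real.log (1.4215 * s))) +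
    (1 + (n + 1) / (0.7 * s ^ 3) + 5 / 64 * (1.4215 * s) ^ 4 +
      (2 * n + 1) / s ^ 4 / 2 * (1.4215 * s + 1 / 2 + 1 / 2 * Real.log (1.4215 * s))) +
    ((2 * n + 1) / s ^ 4 / 2 * (1 + 1 / 2 * Real.log ((2 * n + 1) / s ^ 4 + 1)) +
      (2 * n + 1) / s ^ 4 / 2 + 1) +
    ((2 * n + 1) / s ^ 4 / 4 * (1 + Real.log ((2 * n + 1) / s ^ 4 / 2)) +
      (2 * n + 1) / s ^ 4 / 2) ≤
    5.72 * n / s ^ 3 + 0.64 * s ^ 4 + n / s ^ 4 * Real.log n := by
  have hs0 : 0 < s := by linarith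
  have hn0 : 0 < n := lt_of_lt_of_le (by positivity) hn
  have hs2 : (4096 : ℝ) ≤ s ^ 2 := by
    calc (4096 : ℝ) = 64 ^ 2 := by norm_num
      _ ≤ s ^ 2 := pow_le_pow_left₀ (by norm_num) hs 2
  have hs3 : (262144 : ℝ) ≤ s ^ 3 := by
    calc (262144 : ℝ) = 64 ^ 3 := by norm_num
      _ ≤ s ^ 3 := pow_le_pow_left₀ (by norm_num) hs 3
  set q := n / s ^ 4 with hq
  have hq0 : 0 < q := by positivity
  have hq1 : s ^ 2 ≤ q := by
    rw [hq, le_div_iff₀ (by positivity)]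
    calc s ^ 2 * s ^ 4 = s ^ 6 := by ring
      _ ≤ n := hn
  set e := 1 / s ^ 4 with he
  have he0 : 0 < e := by positivity
  have he1 : e ≤ 1 / 1000000 := by
    rw [he]
    apply one_div_le_one_div_of_le (by norm_num)
    calc (1000000 : ℝ) ≤ 64 ^ 4 := by norm_num
      _ ≤ s ^ 4 := pow_le_pow_left₀ (by norm_num) hs 4
  have hBq : (2 * n + 1) / s ^ 4 = 2 * q + e := by rw [hq, he]; ring
  rw [hBq]
  -- logarithms
  set L := Real.log n with hL
  set l := Real.log s with hl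
  have hlog64 : 4.158 ≤ l := by
    have h1 : Real.log 64 ≤ l := Real.log_le_log (by norm_num) hs
    have h2 : Real.log 64 = 6 * Real.log 2 := by
      rw [show (64 : ℝ) = 2 ^ (6 : ℕ) by norm_num, Real.log_pow]; norm_num
    have h3 := Real.log_two_gt_d9
    linarith
  have hlogR : Real.log (1.4215 * s) ≤ 0.4215 + l := by
    rw [Real.log_mul (by norm_num) hs0.ne']
    have := Real.log_le_sub_one_of_pos (x := 1.4215) (by norm_num)
    linarith
  have hlogq : Real.log q = L - 4 * l := by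
    rw [hq, Real.log_div hn0.ne' (by positivity), Real.log_pow, hL, hl]
    norm_num
  have hlogB1 : Real.log (2 * q + e + 1) ≤ 1.001 + (L - 4 * l) := by
    have h1 : 2 * q + e + 1 ≤ 2.001 * q := by linarith
    calc Real.log (2 * q + e + 1) ≤ Real.log (2.001 * q) :=
          Real.log_le_log (by positivity) h1
      _ = Real.log 2.001 + Real.log q := Real.log_mul (by norm_num) hq0.ne'
      _ ≤ 1.001 + (L - 4 * l) := by
          have := Real.log_le_sub_one_of_pos (x := 2.001) (by norm_num)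
          rw [hlogq]
          linarith
  have hlogB2 : Real.log ((2 * q + e) / 2) ≤ 0.001 + (L - 4 * l) := by
    have h1 : (2 * q + e) / 2 ≤ 1.001 * q := by linarith
    calc Real.log ((2 * q + e) / 2) ≤ Real.log (1.001 * q) :=
          Real.log_le_log (by positivity) h1
      _ = Real.log 1.001 + Real.log q := Real.log_mul (by norm_num) hq0.ne'
      _ ≤ 0.001 + (L - 4 * l) := by
          have := Real.log_le_sub_one_of_pos (x := 1.001) (by norm_num)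
          rw [hlogq]
          linarith
  have hLn : L ≤ n := by
    have := Real.log_le_sub_one_of_pos hn0
    linarith
  have hBpos : 0 < 2 * q + e := by positivity
  -- the terms with logarithms
  have t1 : (2 * q + e) / 2 * (1 / 2 * Real.log (1.4215 * s)) ≤
      (2 * q + e) / 2 * (1 / 2 * (0.4215 + l)) := by
    apply mul_le_mul_of_nonneg_left _ (by positivity)
    linarith
  have t2 : (2 * q + e) / 2 * (1 / 2 * Real.log (2 * q + e + 1)) ≤
      (2 * q + e) / 2 * (1 / 2 * (1.001 + (L - 4 * l))) := by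
    apply mul_le_mul_of_nonneg_left _ (by positivity)
    linarith
  have t3 : (2 * q + e) / 4 * Real.log ((2 * q + e) / 2) ≤
      (2 * q + e) / 4 * (0.001 + (L - 4 * l)) :=
    mul_le_mul_of_nonneg_left hlogB2 (by positivity)
  have t4 : (2 * q + e) / 2 * (5 + L - 3 * l) ≤ (2 * q + e) / 2 * (L - 7) := by
    apply mul_le_mul_of_nonneg_left _ (by positivity)
    linarith
  have t5 : (2 * q + e) / 2 * (L - 7) ≤ q * L := by
    have h1 : e * L ≤ q := by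
      calc e * L ≤ e * n := mul_le_mul_of_nonneg_left hLn he0.le
        _ = q := by rw [he, hq]; ring
    nlinarith
  -- main terms
  have m1 : n / (0.7 * s ^ 3) = n / s ^ 3 * (10 / 7) := by
    field_simp
    norm_num
  have m2 : (n + 1) / (0.7 * s ^ 3) = n / s ^ 3 * (10 / 7) + 1 / s ^ 3 * (10 / 7) := by
    field_simp
    norm_num
  have m3 : (2 * q + e) * (1.4215 * s) = 2.843 * (n / s ^ 3) + 1.4215 * (1 / s ^ 3) := by
    rw [hq, he]
    field_simp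
    ring
  have m4 : 1 / s ^ 3 ≤ 1 := by
    rw [div_le_one (by positivity)]
    linarith
  have m5 : 262144 ≤ n / s ^ 3 := by
    rw [le_div_iff₀ (by positivity)]
    calc 262144 * s ^ 3 ≤ s ^ 3 * s ^ 3 := mul_le_mul_of_nonneg_right hs3 (by positivity)
      _ = s ^ 6 := by ring
      _ ≤ n := hn
  have m6 : 5.72 * n / s ^ 3 = 5.72 * (n / s ^ 3) := by ring
  have m7 : (1.4215 * s) ^ 4 ≤ 4.0831 * s ^ 4 := by
    rw [mul_pow]
    apply mul_le_mul_of_nonneg_right _ (by positivity)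
    norm_num
  rw [m1, m2, m6]
  have m8 : 0 < s ^ 4 := by positivity
  nlinarith

theorem hits_T2_of_gap (gap : GapStatement) (z n p : ℕ) (hz : 2 ≤ z) (hp : p.Prime)
    (hp1 : 4096 ≤ p) (hpn : p ^ 10 ≤ n ^ 3) :
    ((hits z n p).card : ℝ) ≤ 5.72 * n / (p * √p) + 0.64 * (p : ℝ) ^ 2 +
      n / (p : ℝ) ^ 2 * Real.log n := by
  classical
  have hp0 : (0 : ℝ) < p := by exact_mod_cast hp.pos
  -- n ≥ p ^ 3
  have hn3 : p ^ 3 ≤ n := by
    by_contra hcon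
    push Not at hcon
    have h1 : n ^ 3 < (p ^ 3) ^ 3 := Nat.pow_lt_pow_left hcon (by norm_num)
    have h2 : (p ^ 3) ^ 3 ≤ p ^ 10 := by
      rw [← pow_mul]
      exact Nat.pow_le_pow_right hp.pos (by norm_num)
    omega
  set s : ℝ := √p with hs
  have hs2 : s ^ 2 = p := Real.sq_sqrt hp0.le
  have hs64 : 64 ≤ s := by
    apply Real.le_sqrt_of_sq_le
    norm_num
    exact_mod_cast hp1
  have hs0 : 0 < s := by linarith
  have hns : s ^ 6 ≤ (n : ℝ) := by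
    have h1 : s ^ 6 = (p : ℝ) ^ 3 := by rw [← hs2]; ring
    rw [h1]
    exact_mod_cast hn3
  have hs4 : s ^ 4 = (p : ℝ) ^ 2 := by rw [← hs2]; ring
  have hmain : ∀ x ∈ hits z n p, x.1 % 2 = 1 ∧ x.2 % 2 = 0 ∧ 0 < x.2 ∧
      (n / s ^ 2) ^ 2 < (x.1 : ℝ) * (x.2 + 1 / s ^ 2) ∧
      (x.1 : ℝ) * (x.2 + 1 / s ^ 2) < (n / s ^ 2) ^ 2 + (2 * n + 1) / s ^ 4 := by
    intro x hx
    simp only [hits, mem_filter, Hit] at hx
    obtain ⟨_, hk0, hj0, hje, hr, h1, h2⟩ := hx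
    have hodd : x.1 % 2 = 1 := by
      by_contra hcon
      have h3 : 2 ∣ x.1 := by omega
      have := hr 2 Nat.prime_two h3
      omega
    refine ⟨hodd, Nat.even_iff.mp hje, hj0, ?_, ?_⟩
    · have h3 : ((n ^ 2 : ℕ) : ℝ) < ((p * x.1 * (1 + p * x.2) : ℕ) : ℝ) := by exact_mod_cast h1
      push_cast at h3
      rw [hs2, div_pow, div_lt_iff₀ (by positivity)]
      have h4 : (x.1 : ℝ) * (x.2 + 1 / p) * p ^ 2 = p * x.1 * (1 + p * x.2) := by
        field_simp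
        ring
      rw [h4]
      exact h3
    · have h3 : ((p * x.1 * (1 + p * x.2) : ℕ) : ℝ) < (((n + 1) ^ 2 : ℕ) : ℝ) := by
        exact_mod_cast h2
      push_cast at h3
      rw [hs2, hs4, div_pow, ← add_div, lt_div_iff₀ (by positivity)]
      have h4 : (x.1 : ℝ) * (x.2 + 1 / p) * p ^ 2 = p * x.1 * (1 + p * x.2) := by
        field_simp
        ring
      rw [h4]
      linarith
  set B : ℝ := (2 * n + 1) / s ^ 4 with hBdef
  -- the four parts
  set H1 := (hits z n p).filter (fun x => (x.1 : ℝ) < B) with hH1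
  set H2 := (hits z n p).filter (fun x => B ≤ (x.1 : ℝ) ∧ (x.1 : ℝ) ≤ n / s ^ 2) with hH2
  set H3 := (hits z n p).filter (fun x => (x.2 : ℝ) + 1 / s ^ 2 < B) with hH3
  set H4 := (hits z n p).filter (fun x => (n : ℝ) / s ^ 2 < x.1 ∧ B ≤ (x.2 : ℝ) + 1 / s ^ 2)
    with hH4
  have hcover : hits z n p ⊆ (H2 ∪ H4) ∪ (H1 ∪ H3) := by
    intro x hx
    simp only [hH1, hH2, hH3, hH4, mem_union, mem_filter, hx, true_and]
    by_cases h1 : (x.1 : ℝ) < B
    · right; left; exact h1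
    · by_cases h2 : (x.1 : ℝ) ≤ n / s ^ 2
      · left; left; exact ⟨not_lt.mp h1, h2⟩
      · by_cases h3 : (x.2 : ℝ) + 1 / s ^ 2 < B
        · right; right; exact h3
        · left; right; exact ⟨not_le.mp h2, not_lt.mp h3⟩
  have hcard : (hits z n p).card ≤ (H2.card + H4.card) + (H1.card + H3.card) :=
    (Finset.card_le_card hcover).trans ((Finset.card_union_le _ _).trans
      (Nat.add_le_add (Finset.card_union_le _ _) (Finset.card_union_le _ _)))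
  have hcard' : ((hits z n p).card : ℝ) ≤ (H2.card + H4.card) + (H1.card + H3.card) := by
    exact_mod_cast hcard
  have hB2 : 2 ≤ B := by
    rw [hBdef, le_div_iff₀ (by positivity)]
    have h1 : s ^ 4 ≤ s ^ 6 := pow_le_pow_right₀ (by linarith) (by norm_num)
    linarith
  have e1 := small_k H1 ((n / s ^ 2) ^ 2) B (1 / s ^ 2) hB2
    (fun x hx => (hmain x (mem_filter.mp hx).1).1)
    (fun x hx => (hmain x (mem_filter.mp hx).1).2.1)
    (fun x hx => (hmain x (mem_filter.mp hx).1).2.2.2)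
    (fun x hx => (mem_filter.mp hx).2)
  have e3 := small_j H3 ((n / s ^ 2) ^ 2) B (1 / s ^ 2) hB2 (by positivity)
    (fun x hx => (hmain x (mem_filter.mp hx).1).1)
    (fun x hx => (hmain x (mem_filter.mp hx).1).2.1)
    (fun x hx => (hmain x (mem_filter.mp hx).1).2.2.1)
    (fun x hx => (hmain x (mem_filter.mp hx).1).2.2.2)
    (fun x hx => (mem_filter.mp hx).2)
  have e2 := side_one gap H2 n s hs64 hns
    (fun x hx => (hmain x (mem_filter.mp hx).1).1)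
    (fun x hx => (hmain x (mem_filter.mp hx).1).2.1)
    (fun x hx => (hmain x (mem_filter.mp hx).1).2.2.2)
    (fun x hx => (mem_filter.mp hx).2)
  have e4 := side_two gap H4 n s hs64 hns
    (fun x hx => (hmain x (mem_filter.mp hx).1).1)
    (fun x hx => (hmain x (mem_filter.mp hx).1).2.1)
    (fun x hx => (hmain x (mem_filter.mp hx).1).2.2.2)
    (fun x hx => (mem_filter.mp hx).2.2)
    (fun x hx => (mem_filter.mp hx).2.1)
  have e5 := final_ineq n s hs64 hns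
  have e6 : (p : ℝ) * s = s ^ 3 := by rw [← hs2]; ring
  rw [e6, ← hs4]
  linarith

end Pool.Agent.Helper78.TC
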