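import Pool.Agent.Helper9.TC.Defs

/-!
# MP_1181b9_nt, block P: the trivial ranges

Points `(k, j)` with `k` odd, `j` even and `X < k * (j + c) < X + B`, in the ranges `k < B` and
`j + c < B`.
-/

set_option autoImplicit false
open Finset Real

namespace Pool.Agent.Helper78.TC

/-- Number of elements of a fixed parity in an open interval. -/
lemma card_parity (s : Finset ℕ) (a b : ℝ) (hab : a ≤ b)
    (hs : ∀ x ∈ s, a < x ∧ (x : ℝ) < b) (hp : ∀ x ∈ s, ∀ y ∈ s, (x + y) % 2 = 0) :
    (s.card : ℝ) ≤ (b - a) / 2 + 1 := by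
  rcases s.eq_empty_or_nonempty with rfl | hne
  · simp only [card_empty, Nat.cast_zero]; linarith
  · have hm := s.min'_mem hne
    have hM := s.max'_mem hne
    set m := s.min' hne with hmdef
    set M := s.max' hne with hMdef
    have hmM : m ≤ M := s.min'_le M hM
    have h1 : s.card ≤ (M - m) / 2 + 1 := by
      rw [← Finset.card_range ((M - m) / 2 + 1)]
      apply Finset.card_le_card_of_injOn (fun x => (x - m) / 2)
      · intro x hx
        have h3 := s.min'_le x hx
        have h4 := s.le_max' x hx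
        simp only [coe_range, Set.mem_Iio]
        omega
      · intro x hx y hy hxy
        have h3 := s.min'_le x hx
        have h4 := s.min'_le y hy
        have h5 := hp x hx y hy
        have h6 := hp x hx m hm
        have h7 := hp y hy m hm
        simp only at hxy
        omega
    have h3 : 2 * (s.card : ℝ) ≤ M - m + 2 := by
      have h4 : 2 * s.card + m ≤ M + 2 := by
        have : 1 ≤ s.card := hne.card_pos
        omega
      have h5 : ((2 * s.card + m : ℕ) : ℝ) ≤ ((M + 2 : ℕ) : ℝ) := by exact_mod_cast h4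
      push_cast at h5
      linarith
    have h4 := (hs m hm).1
    have h5 := (hs M hM).2
    linarith

lemma sum_odd (N : ℕ) :
    ∑ i ∈ range (N + 1), 1 / (2 * (i : ℝ) + 1) ≤ 1 + 1 / 2 * Real.log (2 * N + 1) := by
  induction N with
  | zero => simp
  | succ N ih =>
    rw [sum_range_succ]
    have h1 : (0 : ℝ) < 2 * N + 1 := by positivity
    have h2 : (0 : ℝ) < 2 * N + 3 := by positivity
    have h3 := Real.one_sub_inv_le_log_of_pos (x := (2 * (N : ℝ) + 3) / (2 * N + 1))
      (by positivity)
    rw [Real.log_div h2.ne' h1.ne', inv_div] at h3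
    have h4 : 1 - (2 * (N : ℝ) + 1) / (2 * N + 3) = 2 * (1 / (2 * ((N + 1 : ℕ) : ℝ) + 1)) := by
      push_cast
      field_simp
      ring
    rw [h4] at h3
    have h5 : (2 * ((N + 1 : ℕ) : ℝ) + 1) = 2 * N + 3 := by push_cast; ring
    rw [h5] at h3 ⊢
    linarith

/-- Range `k < B`. -/
lemma small_k (H : Finset (ℕ × ℕ)) (X B c : ℝ) (hB : 2 ≤ B) 
    (hodd : ∀ x ∈ H, x.1 % 2 = 1) (heven : ∀ x ∈ H, x.2 % 2 = 0)
    (hX : ∀ x ∈ H, X < x.1 * (x.2 + c) ∧ x.1 * (x.2 + c) < X + B)
    (hk : ∀ x ∈ H, (x.1 : ℝ) < B) :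
    (H.card : ℝ) ≤ B / 2 * (1 + 1 / 2 * Real.log (B + 1)) + B / 2 + 1 := by
  classical
  set K := ⌊B⌋₊ with hK
  have hKB : (K : ℝ) ≤ B := Nat.floor_le (by linarith)
  set N := K / 2 with hN
  have hNK : 2 * (N : ℝ) ≤ K := by
    have : 2 * N ≤ K := by omega
    exact_mod_cast this
  have h1 : ∀ x ∈ H, x.1 / 2 ∈ range (N + 1) := by
    intro x hx
    have h2 : x.1 ≤ K := Nat.le_floor (hk x hx).le
    rw [mem_range]
    have := Nat.div_le_div_right (c := 2) h2
    omega
  rw [Finset.card_eq_sum_card_fiberwise h1]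
  push_cast
  have h2 : ∀ i ∈ range (N + 1), ((H.filter (fun x => x.1 / 2 = i)).card : ℝ) ≤
      B / 2 * (1 / (2 * (i : ℝ) + 1)) + 1 := by
    intro i _
    have h3 : (H.filter (fun x => x.1 / 2 = i)).card =
        ((H.filter (fun x => x.1 / 2 = i)).image Prod.snd).card := by
      rw [Finset.card_image_of_injOn]
      intro x hx y hy hxy
      simp only [coe_filter, Set.mem_ofPred_eq] at hx hy
      have h4 := hodd x hx.1
      have h5 := hodd y hy.1
      ext
      · omega
      · exact hxy
    rw [h3]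
    have hpos : (0 : ℝ) < 2 * i + 1 := by positivity
    have h4 := card_parity ((H.filter (fun x => x.1 / 2 = i)).image Prod.snd)
      (X / (2 * i + 1) - c) ((X + B) / (2 * i + 1) - c)
      (by
        have : X / (2 * (i : ℝ) + 1) ≤ (X + B) / (2 * i + 1) := by
          apply div_le_div_of_nonneg_right _ hpos.le
          linarith
        linarith)
      (by
        intro y hy
        simp only [mem_image, mem_filter] at hy
        obtain ⟨x, ⟨hx, hxi⟩, rfl⟩ := hy
        have h5 := hodd x hx
        have h6 : x.1 = 2 * i + 1 := by omega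
        have h7 : (x.1 : ℝ) = 2 * i + 1 := by exact_mod_cast h6
        obtain ⟨h8, h9⟩ := hX x hx
        rw [h7] at h8 h9
        constructor
        · rw [sub_lt_iff_lt_add, div_lt_iff₀ hpos]
          linarith
        · rw [lt_sub_iff_add_lt, lt_div_iff₀ hpos]
          linarith)
      (by
        intro y hy z hz
        simp only [mem_image, mem_filter] at hy hz
        obtain ⟨x, ⟨hx, _⟩, rfl⟩ := hy
        obtain ⟨x', ⟨hx', _⟩, rfl⟩ := hz
        have h5 := heven x hx
        have h6 := heven x' hx'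
        omega)
    refine h4.trans (le_of_eq ?_)
    field_simp
    ring
  refine (Finset.sum_le_sum h2).trans ?_
  rw [Finset.sum_add_distrib, ← Finset.mul_sum]
  simp only [sum_const, card_range, nsmul_eq_mul, mul_one]
  have h3 := sum_odd N
  have h4 : Real.log (2 * N + 1) ≤ Real.log (B + 1) := by
    apply Real.log_le_log (by positivity)
    linarith
  have h5 : B / 2 * ∑ i ∈ range (N + 1), 1 / (2 * (i : ℝ) + 1) ≤
      B / 2 * (1 + 1 / 2 * Real.log (B + 1)) := by
    apply mul_le_mul_of_nonneg_left _ (by linarith)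
    linarith
  push_cast
  linarith

/-- Range `j + c < B`. -/
lemma small_j (H : Finset (ℕ × ℕ)) (X B c : ℝ) (hB : 2 ≤ B) (hc : 0 ≤ c)
    (hodd : ∀ x ∈ H, x.1 % 2 = 1) (heven : ∀ x ∈ H, x.2 % 2 = 0) (hj0 : ∀ x ∈ H, 0 < x.2)
    (hX : ∀ x ∈ H, X < x.1 * (x.2 + c) ∧ x.1 * (x.2 + c) < X + B)
    (hj : ∀ x ∈ H, (x.2 : ℝ) + c < B) :
    (H.card : ℝ) ≤ B / 4 * (1 + Real.log (B / 2)) + B / 2 := by
  classical
  set N := ⌊B / 2⌋₊ with hN
  have hNB : (N : ℝ) ≤ B / 2 := Nat.floor_le (by linarith)
  have hN1 : 1 ≤ N := by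
    rw [hN]
    apply Nat.le_floor
    push_cast
    linarith
  have h1 : ∀ x ∈ H, x.2 / 2 - 1 ∈ range N := by
    intro x hx
    have h2 := heven x hx
    have h3 := hj0 x hx
    have h4 := hj x hx
    have h5 : x.2 / 2 ≤ N := by
      apply Nat.le_floor
      have h6 : ((2 * (x.2 / 2) : ℕ) : ℝ) = x.2 := by
        have : 2 * (x.2 / 2) = x.2 := by omega
        rw [this]
      push_cast at h6
      linarith
    rw [mem_range]
    omega
  rw [Finset.card_eq_sum_card_fiberwise h1]
  push_cast
  have h2 : ∀ i ∈ range N, ((H.filter (fun x => x.2 / 2 - 1 = i)).card : ℝ) ≤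
      B / 4 * (1 / ((i : ℝ) + 1)) + 1 := by
    intro i _
    have h3 : (H.filter (fun x => x.2 / 2 - 1 = i)).card =
        ((H.filter (fun x => x.2 / 2 - 1 = i)).image Prod.fst).card := by
      rw [Finset.card_image_of_injOn]
      intro x hx y hy hxy
      simp only [coe_filter, Set.mem_ofPred_eq] at hx hy
      have h4 := heven x hx.1
      have h5 := heven y hy.1
      have h6 := hj0 x hx.1
      have h7 := hj0 y hy.1
      ext
      · exact hxy
      · omega
    rw [h3]
    have hpos : (0 : ℝ) < 2 * i + 2 + c := by positivity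
    have h4 := card_parity ((H.filter (fun x => x.2 / 2 - 1 = i)).image Prod.fst)
      (X / (2 * i + 2 + c)) ((X + B) / (2 * i + 2 + c))
      (by
        apply div_le_div_of_nonneg_right _ hpos.le
        linarith)
      (by
        intro y hy
        simp only [mem_image, mem_filter] at hy
        obtain ⟨x, ⟨hx, hxi⟩, rfl⟩ := hy
        have h5 := heven x hx
        have h5' := hj0 x hx
        have h6 : x.2 = 2 * i + 2 := by omega
        have h7 : (x.2 : ℝ) = 2 * i + 2 := by exact_mod_cast h6
        obtain ⟨h8, h9⟩ := hX x hx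
        rw [h7] at h8 h9
        constructor
        · rw [div_lt_iff₀ hpos]
          linarith
        · rw [lt_div_iff₀ hpos]
          linarith)
      (by
        intro y hy z hz
        simp only [mem_image, mem_filter] at hy hz
        obtain ⟨x, ⟨hx, _⟩, rfl⟩ := hy
        obtain ⟨x', ⟨hx', _⟩, rfl⟩ := hz
        have h5 := hodd x hx
        have h6 := hodd x' hx'
        omega)
    refine h4.trans ?_
    have h5 : (X + B) / (2 * (i : ℝ) + 2 + c) - X / (2 * i + 2 + c) = B / (2 * i + 2 + c) := by
      ring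
    rw [h5]
    have h6 : B / (2 * (i : ℝ) + 2 + c) ≤ B / (2 * i + 2) := by
      apply div_le_div_of_nonneg_left (by linarith) (by positivity)
      linarith
    have h7 : B / (2 * (i : ℝ) + 2) / 2 = B / 4 * (1 / ((i : ℝ) + 1)) := by
      field_simp
      ring
    linarith
  refine (Finset.sum_le_sum h2).trans ?_
  rw [Finset.sum_add_distrib, ← Finset.mul_sum]
  simp only [sum_const, card_range, nsmul_eq_mul, mul_one]
  have h3 : ∑ i ∈ range N, 1 / ((i : ℝ) + 1) ≤ 1 + Real.log N := by
    have h4 := harmonic_le_one_add_log N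
    have h5 : ((harmonic N : ℚ) : ℝ) = ∑ i ∈ range N, 1 / ((i : ℝ) + 1) := by
      unfold harmonic
      push_cast
      apply Finset.sum_congr rfl
      intro i _
      rw [one_div]
    linarith
  have h4 : Real.log N ≤ Real.log (B / 2) := by
    apply Real.log_le_log _ hNB
    exact_mod_cast hN1
  have h5 : B / 4 * ∑ i ∈ range N, 1 / ((i : ℝ) + 1) ≤ B / 4 * (1 + Real.log (B / 2)) := by
    apply mul_le_mul_of_nonneg_left _ (by linarith)
    linarith
  linarith

end Pool.Agent.Helper78.TC
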